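import Pool.Agent.W169.AF.Stm
import Pool.Agent.H382R2.Digamma
import Pool.Agent.W45.WP.Dig

set_option autoImplicit false

/-!
# Project AF, part HG: the Gamma factor of primitive characters at the height `Q ^ c`
-/

namespace Pool.Agent.W300.AF.HG
open Complex Filter Topology Set
open Pool.Agent.W169.AF (PC LC LF S_HG)

lemma psi_bound : ∃ C : ℝ, 0 < C ∧ ∀ w : ℂ, 1 / 8 ≤ w.re → w.re ≤ 3 / 2 →
    ‖logDeriv Complex.Gamma w‖ ≤ C + Real.log (2 + |w.im|) := by
  obtain ⟨C0, hC0, h0⟩ := SG.digamma_bound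
  have hZ := SG.Dig.Z2_nonneg
  have hg := abs_nonneg Real.eulerMascheroniConstant
  refine ⟨C0 + (|Real.eulerMascheroniConstant| + 8 + 3 * SG.Dig.Z2), by positivity, ?_⟩
  intro w h1 h2
  have him := abs_nonneg w.im
  by_cases hw : 3 / 2 ≤ |w.im|
  · have h3 := h0 w (by linarith) (by rw [abs_of_pos (by linarith)]; linarith)
    have h4 : ‖((Real.log |w.im| : ℝ) : ℂ)‖ = Real.log |w.im| := by
      rw [Complex.norm_real, Real.norm_eq_abs, abs_of_nonneg (Real.log_nonneg (by linarith))]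
    have h5 : Real.log |w.im| ≤ Real.log (2 + |w.im|) :=
      Real.log_le_log (by linarith) (by linarith)
    have h6 : ‖logDeriv Complex.Gamma w‖ ≤ ‖logDeriv Complex.Gamma w - ((Real.log |w.im| : ℝ) : ℂ)‖ +
        ‖((Real.log |w.im| : ℝ) : ℂ)‖ := by
      have := norm_add_le (logDeriv Complex.Gamma w - ((Real.log |w.im| : ℝ) : ℂ))
        ((Real.log |w.im| : ℝ) : ℂ)
      rwa [sub_add_cancel] at this
    rw [h4] at h6
    linarith
  · push Not at hw
    have hre : 0 < w.re := by linarith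
    have hn3 : ‖w‖ ≤ 3 := by
      have := Complex.norm_le_abs_re_add_abs_im w
      rw [abs_of_pos hre] at this
      linarith
    have hn0 : 1 / 8 ≤ ‖w‖ := h1.trans (Complex.re_le_norm w)
    rw [Pool.Agent.W45.WP.logDeriv_Gamma_eq hre]
    have hs : ‖∑' n, Pool.Agent.W45.WP.dg n w‖ ≤ ‖w‖ * SG.Dig.Z2 := by
      unfold SG.Dig.Z2
      rw [← tsum_mul_left]
      exact tsum_of_norm_bounded ((H370.DG.summable_inv_sq.mul_left ‖w‖).hasSum)
        fun n => Pool.Agent.W45.WP.norm_dg_le n hre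
    have h3 : ‖(1 : ℂ) / w‖ ≤ 8 := by
      rw [norm_div, norm_one, div_le_iff₀ (by linarith)]
      linarith
    have h4 : ‖(Real.eulerMascheroniConstant : ℂ)‖ = |Real.eulerMascheroniConstant| := by
      rw [Complex.norm_real, Real.norm_eq_abs]
    have h5 := norm_add_le (-(Real.eulerMascheroniConstant : ℂ) - 1 / w)
      (∑' n, Pool.Agent.W45.WP.dg n w)
    have h6 := norm_sub_le (-(Real.eulerMascheroniConstant : ℂ)) (1 / w)
    rw [norm_neg, h4] at h6
    have h7 : 0 ≤ Real.log (2 + |w.im|) := Real.log_nonneg (by linarith)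
    have h8 := mul_le_mul_of_nonneg_right hn3 hZ
    linarith

lemma half_ne {s : ℂ} (hs : 0 < s.re) (m : ℕ) : s / 2 ≠ -m := by
  intro h
  have h2 : s = -(m : ℂ) * 2 := by
    rw [← h]; ring
  rw [h2] at hs
  simp at hs
  have : (0 : ℝ) ≤ m := Nat.cast_nonneg m
  linarith

lemma GR_deriv {s : ℂ} (hs : 0 < s.re) :
    HasDerivAt Gammaℝ (Gammaℝ s * (-(Real.log Real.pi / 2 : ℝ) + logDeriv Complex.Gamma (s / 2) / 2)) s := by
  have hG : HasDerivAt Complex.Gamma (deriv Complex.Gamma (s / 2)) (s / 2) :=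
    (differentiableAt_Gamma _ (half_ne hs)).hasDerivAt
  have hne : Complex.Gamma (s / 2) ≠ 0 := Gamma_ne_zero (half_ne hs)
  have h1 : HasDerivAt (fun z : ℂ => Complex.Gamma (z / 2)) (deriv Complex.Gamma (s / 2) * (1 / 2)) s :=
    HasDerivAt.comp s hG ((hasDerivAt_id s).div_const 2)
  have h2 : HasDerivAt (fun z : ℂ => (Real.pi : ℂ) ^ (-z / 2))
      ((Real.pi : ℂ) ^ (-s / 2) * Complex.log Real.pi * (-1 / 2)) s := by
    have : HasDerivAt (fun z : ℂ => -z / 2) (-1 / 2) s := ((hasDerivAt_id s).neg).div_const 2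
    exact this.const_cpow (Or.inl (by exact_mod_cast Real.pi_ne_zero))
  have h3 := h2.mul h1
  have e : (fun z : ℂ => (Real.pi : ℂ) ^ (-z / 2)) * (fun z : ℂ => Complex.Gamma (z / 2)) = Gammaℝ := by
    funext z
    simp [Gammaℝ_def]
  have e' : (Real.pi : ℂ) ^ (-s / 2) * Complex.log Real.pi * (-1 / 2) * Complex.Gamma (s / 2) +
      (Real.pi : ℂ) ^ (-s / 2) * (deriv Complex.Gamma (s / 2) * (1 / 2)) =
      Gammaℝ s * (-(Real.log Real.pi / 2 : ℝ) + logDeriv Complex.Gamma (s / 2) / 2) := by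
    rw [Gammaℝ_def, logDeriv_apply, ← Complex.ofReal_log Real.pi_pos.le]
    push_cast
    field_simp
  rw [← e', ← e]
  exact h3

/-- the factor -/
noncomputable def HH (q : ℕ) (κ : ℝ) (s : ℂ) : ℂ := (q : ℂ) ^ (s / 2) * Gammaℝ (s + κ)

/-- its logarithmic derivative -/
noncomputable def ld (q : ℕ) (κ : ℝ) (s : ℂ) : ℂ :=
  (Real.log q / 2 : ℝ) + (-(Real.log Real.pi / 2 : ℝ) + logDeriv Complex.Gamma ((s + κ) / 2) / 2)

lemma re_add {κ : ℝ} (hκ : 0 ≤ κ) {s : ℂ} (hs : 0 < s.re) : 0 < (s + κ).re := by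
  simp only [add_re, ofReal_re]
  linarith

lemma HH_ne {q : ℕ} (hq : 2 ≤ q) {κ : ℝ} (hκ : 0 ≤ κ) {s : ℂ} (hs : 0 < s.re) : HH q κ s ≠ 0 := by
  unfold HH
  have hq0 : (q : ℂ) ≠ 0 := by exact_mod_cast (by omega : q ≠ 0)
  exact mul_ne_zero (by rw [Ne, cpow_eq_zero_iff]; tauto)
    (Gammaℝ_ne_zero_of_re_pos (re_add hκ hs))

lemma HH_deriv {q : ℕ} (hq : 2 ≤ q) {κ : ℝ} (hκ : 0 ≤ κ) {s : ℂ} (hs : 0 < s.re) :
    HasDerivAt (HH q κ) (HH q κ s * ld q κ s) s := by
  have hq0 : (q : ℂ) ≠ 0 := by exact_mod_cast (by omega : q ≠ 0)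
  have h1 : HasDerivAt (fun z : ℂ => (q : ℂ) ^ (z / 2))
      ((q : ℂ) ^ (s / 2) * Complex.log q * (1 / 2)) s := by
    have : HasDerivAt (fun z : ℂ => z / 2) (1 / 2) s := (hasDerivAt_id s).div_const 2
    exact this.const_cpow (Or.inl hq0)
  have h2 : HasDerivAt (fun z : ℂ => z + (κ : ℂ)) 1 s := (hasDerivAt_id s).add_const _
  have h3 := HasDerivAt.comp s (GR_deriv (re_add hκ hs)) h2
  have h4 := h1.mul h3
  have e : HH q κ = (fun z : ℂ => (q : ℂ) ^ (z / 2)) * (Gammaℝ ∘ fun z : ℂ => z + (κ : ℂ)) := by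
    funext w
    simp [HH]
  rw [e]
  refine h4.congr_deriv ?_
  have hl : Complex.log (q : ℂ) = ((Real.log q : ℝ) : ℂ) := (Complex.natCast_log).symm
  simp only [Pi.mul_apply, Function.comp_apply, ld, hl]
  push_cast
  ring

lemma ld_eq {q : ℕ} (hq : 2 ≤ q) {κ : ℝ} (hκ : 0 ≤ κ) {s : ℂ} (hs : 0 < s.re) :
    logDeriv (HH q κ) s = ld q κ s := by
  rw [logDeriv_apply, (HH_deriv hq hκ hs).deriv, mul_comm, mul_div_assoc,
    div_self (HH_ne hq hκ hs), mul_one]

lemma LC_eq {q : ℕ} (hq : 2 ≤ q) (χ : DirichletCharacter ℂ q) :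
    ∃ κ : ℝ, 0 ≤ κ ∧ κ ≤ 1 ∧ ∀ s : ℂ, 0 < s.re → LC q χ s = HH q κ s * LF q χ s := by
  have hq0 : q ≠ 0 := by omega
  have : NeZero q := ⟨hq0⟩
  have hkey : ∀ (κ : ℝ), 0 ≤ κ → (∀ s, DirichletCharacter.gammaFactor χ s = Gammaℝ (s + κ)) →
      ∀ s : ℂ, 0 < s.re → LC q χ s = HH q κ s * LF q χ s := by
    intro κ hκ hγ s hs
    unfold LC LF HH
    rw [dif_neg hq0, dif_neg hq0]
    have h := DirichletCharacter.LFunction_eq_completed_div_gammaFactor χ s (Or.inr (by omega))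
    rw [h, hγ s]
    have hne : Gammaℝ (s + κ) ≠ 0 := Gammaℝ_ne_zero_of_re_pos (re_add hκ hs)
    field_simp
  by_cases hE : χ.Even
  · refine ⟨0, le_rfl, zero_le_one, hkey 0 le_rfl ?_⟩
    intro s
    simp [DirichletCharacter.gammaFactor, hE]
  · refine ⟨1, zero_le_one, le_rfl, hkey 1 zero_le_one ?_⟩
    intro s
    simp [DirichletCharacter.gammaFactor, hE]

theorem hg : S_HG := by
  intro η hη
  obtain ⟨C, hC, hψ⟩ := psi_bound
  have hpi : 0 < Real.log Real.pi := Real.log_pos (by linarith [Real.pi_gt_three])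
  have hl3 : 0 < Real.log 3 := Real.log_pos (by norm_num)
  set K : ℝ := (Real.log Real.pi + C + Real.log 3) / 2 with hK
  have hK0 : 0 < K := by positivity
  refine ⟨min (1 / 30) (η / 2), max 2 (Real.exp (2 * K / η)), by positivity, min_le_left _ _,
    le_max_left _ _, ?_⟩
  intro Q q hQ0 hq1 hqQ χ _
  set c : ℝ := min (1 / 30) (η / 2) with hc
  have hc0 : 0 < c := by positivity
  have hc1 : c ≤ 1 / 30 := min_le_left _ _
  have hc2 : c ≤ η / 2 := min_le_right _ _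
  have hQ2 : (2 : ℝ) ≤ Q := (le_max_left _ _).trans hQ0
  have hQpos : (0 : ℝ) < Q := by linarith
  have hL : 2 * K / η ≤ Real.log Q := by
    rw [← Real.log_exp (2 * K / η)]
    exact Real.log_le_log (Real.exp_pos _) ((le_max_right _ _).trans hQ0)
  have hL' : K ≤ η / 2 * Real.log Q := by
    rw [div_le_iff₀ hη] at hL
    linarith
  have hLpos : 0 < Real.log Q := Real.log_pos (by linarith)
  have hq2 : 2 ≤ q := by
    have h1 : (1 : ℝ) < (Q : ℝ) ^ (1 - c) := Real.one_lt_rpow (by linarith) (by linarith)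
    have h2 : (1 : ℝ) < q := lt_of_lt_of_le h1 hq1
    exact_mod_cast h2
  have hqpos : (0 : ℝ) < q := by exact_mod_cast (by omega : 0 < q)
  have hlq1 : (1 - c) * Real.log Q ≤ Real.log q := by
    rw [← Real.log_rpow hQpos]
    exact Real.log_le_log (Real.rpow_pos_of_pos hQpos _) hq1
  have hlq2 : Real.log q ≤ Real.log Q := Real.log_le_log hqpos (by exact_mod_cast hqQ)
  obtain ⟨κ, hκ0, hκ1, hLC⟩ := LC_eq hq2 χ
  refine ⟨HH q κ, fun s hs => ⟨(HH_deriv hq2 hκ0 hs).differentiableAt, HH_ne hq2 hκ0 hs, hLC s hs⟩, ?_⟩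
  intro s hs1 hs2 him
  have hs : 0 < s.re := by linarith
  rw [ld_eq hq2 hκ0 hs]
  unfold ld
  set w : ℂ := (s + κ) / 2 with hw
  have hwre : w.re = (s.re + κ) / 2 := by
    rw [hw]; simp
  have hwim : w.im = s.im / 2 := by
    rw [hw]; simp
  have h1 := hψ w (by rw [hwre]; linarith) (by rw [hwre]; linarith)
  have hQc : 1 ≤ (Q : ℝ) ^ c := Real.one_le_rpow (by linarith) hc0.le
  have h2 : Real.log (2 + |w.im|) ≤ Real.log 3 + c * Real.log Q := by
    rw [← Real.log_rpow hQpos, ← Real.log_mul (by norm_num) (by positivity)]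
    apply Real.log_le_log (by positivity)
    rw [hwim, abs_div, abs_two]
    linarith
  have e : ((Real.log q / 2 : ℝ) : ℂ) + (-(Real.log Real.pi / 2 : ℝ) + logDeriv Complex.Gamma w / 2) -
      ((Real.log Q / 2 : ℝ) : ℂ) = (((Real.log q - Real.log Q) / 2 - Real.log Real.pi / 2 : ℝ) : ℂ) +
      logDeriv Complex.Gamma w / 2 := by
    push_cast
    ring
  rw [e]
  have h3 := norm_add_le (((Real.log q - Real.log Q) / 2 - Real.log Real.pi / 2 : ℝ) : ℂ)
    (logDeriv Complex.Gamma w / 2)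
  have h4 : ‖(((Real.log q - Real.log Q) / 2 - Real.log Real.pi / 2 : ℝ) : ℂ)‖ =
      (Real.log Q - Real.log q) / 2 + Real.log Real.pi / 2 := by
    rw [Complex.norm_real, Real.norm_eq_abs, abs_of_nonpos (by linarith)]
    ring
  have h5 : ‖logDeriv Complex.Gamma w / 2‖ = ‖logDeriv Complex.Gamma w‖ / 2 := by
    rw [norm_div]; simp
  rw [h4, h5] at h3
  have h6 : c * Real.log Q ≤ η / 2 * Real.log Q := mul_le_mul_of_nonneg_right hc2 hLpos.le
  calc _ ≤ _ := h3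
    _ ≤ K + c * Real.log Q := by
      rw [hK]
      linarith
    _ ≤ η * Real.log Q := by linarith

end Pool.Agent.W300.AF.HG
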